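import Mathlib

set_option autoImplicit false

namespace Pool.Agent.Results.MP_c02c06_co.MaxMult

open Finset

/-- a is a nondecreasing sequence of positive integers a 1, a 2, …, extended by a 0 = 0 (truncated
subtraction sends every index k ≤ 0 to 0), satisfying the defining equation of order r. -/
def Sol (r : ℕ) (a : ℕ → ℕ) : Prop :=
  a 0 = 0 ∧ (∀ n, 1 ≤ n → 1 ≤ a n) ∧ Monotone a ∧
    ∀ n, 1 ≤ n → a (∑ i ∈ range r, a (n - i)) = n

/-- The almost Golomb sequence: each term is as small as possible given the earlier terms. -/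
def AlmostGolomb (r : ℕ) (a : ℕ → ℕ) : Prop :=
  Sol r a ∧ ∀ b, Sol r b → ∀ n, (∀ k < n, b k = a k) → a n ≤ b n

/-- The number of occurrences of the value n. -/
noncomputable def occ (a : ℕ → ℕ) (n : ℕ) : ℕ∞ := {i | 1 ≤ i ∧ a i = n}.encard

def g (r : ℕ) : ℕ → ℕ
  | 0 => 0
  | 1 => 1
  | 2 => 2
  | 3 => 2
  | n + 4 => if ∑ i ∈ range r, g r (min (g r (n + 3) + 1 - i) (n + 3)) = n + 4 then g r (n + 3) + 1
      else g r (n + 3)
decreasing_by all_goals omega

def s (r m : ℕ) : ℕ := ∑ i ∈ range r, g r (m - i)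

variable {r : ℕ}

theorem g0 : g r 0 = 0 := by rw [g]
theorem g1 : g r 1 = 1 := by rw [g]
theorem g2 : g r 2 = 2 := by rw [g]
theorem g3 : g r 3 = 2 := by rw [g]

theorem g_step (n : ℕ) : g r n ≤ g r (n + 1) ∧ g r (n + 1) ≤ g r n + 1 := by
  match n with
  | 0 => simp [g0, g1]
  | 1 => simp [g1, g2]
  | 2 => simp [g2, g3]
  | n + 3 => rw [g]; split_ifs <;> omega

theorem g_mono : Monotone (g r) := monotone_nat_of_le_succ fun n => (g_step n).1

theorem g_lip (x k : ℕ) : g r (x + k) ≤ g r x + k := by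
  induction k with
  | zero => exact le_rfl
  | succ k ih => have := (g_step (r := r) (x + k)).2; rw [← add_assoc]; omega

theorem g_lt (n : ℕ) (hn : 3 ≤ n) : g r n + 1 ≤ n := by
  have := g_lip (r := r) 3 (n - 3)
  rw [g3, show 3 + (n - 3) = n by omega] at this
  omega

theorem g_pos (n : ℕ) (hn : 1 ≤ n) : 1 ≤ g r n := g1 (r := r) ▸ g_mono hn

theorem g_rec (n : ℕ) (hn : 3 ≤ n) :
    g r (n + 1) = if s r (g r n + 1) = n + 1 then g r n + 1 else g r n := by
  obtain ⟨k, rfl⟩ : ∃ k, n = k + 3 := ⟨n - 3, by omega⟩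
  have := g_lt (r := r) (k + 3) hn
  rw [g, s, sum_congr rfl fun i _ => by rw [min_eq_left (by omega)]]

theorem s_succ (m : ℕ) : s r (m + 1) + g r (m + 1 - r) = s r m + g r (m + 1) := by
  have h1 := sum_range_succ (fun i => g r (m + 1 - i)) r
  rw [sum_range_succ'] at h1
  simp only [Nat.add_sub_add_right, Nat.sub_zero] at h1
  unfold s
  omega

theorem s0 : s r 0 = 0 := by simp [s, g0]

theorem s_small (hr : 3 ≤ r) : s r 1 = 1 ∧ s r 2 = 3 ∧ s r 3 = 5 := by
  have h1 := s_succ (r := r) 0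
  have h2 := s_succ (r := r) 1
  have h3 := s_succ (r := r) 2
  rw [Nat.sub_eq_zero_of_le (by omega), g0] at h1 h2 h3
  simp only [s0, g1, g2, g3, zero_add, add_zero, Nat.reduceAdd] at h1 h2 h3
  omega

theorem g45 (hr : 3 ≤ r) : g r 4 = 2 ∧ g r 5 = 3 := by
  have h4 : g r 4 = 2 := by rw [g_rec 3 le_rfl, g3, (s_small hr).2.2]; rfl
  exact ⟨h4, by rw [g_rec 4 (by omega), h4, (s_small hr).2.2]; rfl⟩

theorem g_s (hr : 4 ≤ r) (m : ℕ) (hm : 3 ≤ m) : g r (s r m) = m ∧ ∀ x, x < s r m → g r x < m := by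
  induction m using Nat.strong_induction_on with
  | _ m ih =>
  rcases Nat.eq_or_lt_of_le hm with rfl | hm'
  · rw [(s_small (by omega)).2.2]
    refine ⟨(g45 (by omega)).2, fun x hx => ?_⟩
    have := g_mono (r := r) (show x ≤ 4 by omega)
    rw [(g45 (by omega)).1] at this
    omega
  obtain ⟨m, rfl⟩ : ∃ k, m = k + 1 := ⟨m - 1, by omega⟩
  have hlt : g r (m + 1 - r) < g r (m + 1) := by
    by_cases h1 : m + 1 ≤ r
    · rw [Nat.sub_eq_zero_of_le h1, g0]
      exact g_pos _ (by omega)
    by_cases h2 : g r (m + 1 - r) ≤ 2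
    · have := g_mono (r := r) (show 5 ≤ m + 1 by omega)
      rw [(g45 (by omega)).2] at this
      omega
    · have h3 := g_lip (r := r) 0 (m + 1 - r)
      rw [g0, zero_add] at h3
      have h4 := (ih (g r (m + 1 - r)) (by omega) (by omega)).2 (m + 1 - r)
      have h5 := (ih (g r (m + 1 - r) + 1) (by omega) (by omega)).1
      have h6 := s_succ (r := r) (g r (m + 1 - r))
      have h7 := g_lip (r := r) (g r (m + 1 - r) + 1 - r) r
      have h8 := g_mono (r := r) (show g r (m + 1 - r) + 1 ≤ g r (m + 1 - r) + 1 - r + r by omega)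
      have h9 := g_mono (r := r) (show s r (g r (m + 1 - r) + 1) ≤ m + 1 by omega)
      omega
  have h1 := s_succ (r := r) m
  obtain ⟨h2, h3⟩ := ih m (by omega) (by omega)
  have h4 : 3 ≤ s r m := by
    have := g_lip (r := r) 0 (s r m)
    rw [g0, zero_add] at this
    omega
  have h5 : ∀ k, s r m + k < s r (m + 1) → g r (s r m + k) = m := by
    intro k
    induction k with
    | zero => exact fun _ => h2
    | succ k ihk =>
      intro hk
      rw [← add_assoc, g_rec _ (by omega), ihk (by omega), if_neg (by omega)]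
  obtain ⟨k, hk⟩ : ∃ k, s r (m + 1) = s r m + k + 1 := ⟨s r (m + 1) - s r m - 1, by omega⟩
  have h6 := h5 k (by omega)
  refine ⟨by rw [hk, g_rec _ (by omega), h6, if_pos hk], fun x hx => ?_⟩
  have := g_mono (r := r) (show x ≤ s r m + k by omega)
  omega

theorem sol_g (hr : 4 ≤ r) : Sol r (g r) := by
  refine ⟨g0, g_pos, g_mono, fun n hn => ?_⟩
  show g r (s r n) = n
  match n, hn with
  | 1, _ => rw [(s_small (by omega)).1, g1]
  | 2, _ => rw [(s_small (by omega)).2.1, g3]
  | n + 3, _ => exact (g_s hr _ (by omega)).1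

theorem ag_g (hr : 4 ≤ r) : AlmostGolomb r (g r) := by
  refine ⟨sol_g hr, fun b ⟨b0, b1, b2, b3⟩ n hn => ?_⟩
  match n with
  | 0 => simp [g0]
  | 1 => rw [g1]; exact b1 1 le_rfl
  | 2 =>
    rw [g2]
    by_contra h
    have h1 : b 2 = 1 := by have := b1 2 (by omega); omega
    have h2 : b 1 = 1 := by rw [hn 1 (by omega), g1]
    have h3 := b3 2 (by omega)
    obtain ⟨k, rfl⟩ : ∃ k, r = k + 2 := ⟨r - 2, by omega⟩
    rw [sum_range_succ', sum_range_succ', sum_eq_zero (fun i _ => by
      rw [Nat.sub_eq_zero_of_le (by omega), b0])] at h3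
    simp [h1, h2] at h3
  | 3 =>
    have := b2 (show 2 ≤ 3 by omega)
    rw [hn 2 (by omega), g2] at this
    rwa [g3]
  | n + 4 =>
    have h1 := b2 (show n + 3 ≤ n + 4 by omega)
    rw [hn _ (by omega)] at h1
    rw [g_rec _ (by omega)]
    split_ifs with h
    · have h2 := b3 (g r (n + 3) + 1) (by omega)
      have h3 := g_lt (r := r) (n + 3) (by omega)
      rw [sum_congr rfl fun i _ => hn _ (by omega)] at h2
      exact (h2.symm.trans (congrArg b h)).le
    · exact h1

def p (r v : ℕ) : ℕ := if v ≤ 2 then v else s r v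

theorem p_le (hr : 4 ≤ r) (v x : ℕ) : p r v ≤ x ↔ v ≤ g r x := by
  unfold p
  split_ifs with h
  · have e : g r v = v := by
      interval_cases v
      exacts [g0, g1, g2]
    have := g_lip (r := r) 0 x
    rw [g0, zero_add] at this
    exact ⟨fun h1 => e ▸ g_mono h1, fun h1 => by omega⟩
  · obtain ⟨h1, h2⟩ := g_s hr v (by omega)
    exact ⟨fun h3 => h1 ▸ g_mono h3, fun h3 => by_contra fun h4 => by have := h2 x (by omega); omega⟩

theorem p_succ (v : ℕ) (hv : 3 ≤ v) : p r (v + 1) + g r (v + 1 - r) = p r v + g r (v + 1) := by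
  simp only [p, if_neg (show ¬ v ≤ 2 by omega), if_neg (show ¬ v + 1 ≤ 2 by omega)]
  exact s_succ v

theorem p123 (hr : 3 ≤ r) : p r 1 = 1 ∧ p r 2 = 2 ∧ p r 3 = 5 :=
  ⟨rfl, rfl, (s_small hr).2.2⟩

theorem G_bd (hr : 5 ≤ r) : 3 ≤ g r r ∧ g r r + 2 ≤ r := by
  have h1 := g_mono (r := r) hr
  have h2 := g_lip (r := r) 5 (r - 5)
  rw [show 5 + (r - 5) = r by omega] at h2
  rw [(g45 (by omega)).2] at h1 h2
  omega

theorem early (hr : 5 ≤ r) (v : ℕ) (hv : 1 ≤ v) (h : v + g r r ≤ r) :
    p r v + r ≤ p r (v + g r r) := by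
  have hG := G_bd hr
  have h123 := p123 (r := r) (by omega)
  induction v, hv using Nat.le_induction with
  | base =>
    have := (p_le (r := r) (by omega) (1 + g r r) r).not.2 (by omega)
    omega
  | succ v hv ih =>
    have h1 := ih (by omega)
    have h2 := p_succ (r := r) (v + g r r) (by omega)
    rw [Nat.sub_eq_zero_of_le (by omega), g0] at h2
    have h3 := g_mono (r := r) (show 5 ≤ v + g r r + 1 by omega)
    rw [(g45 (by omega)).2] at h3
    rw [show v + 1 + g r r = v + g r r + 1 by omega]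
    by_cases h4 : v ≤ 2
    · interval_cases v <;> simp only [Nat.reduceAdd] <;> omega
    · have h5 := p_succ (r := r) v (by omega)
      have h6 := g_mono (r := r) (show v + 1 ≤ v + g r r + 1 by omega)
      omega

theorem window (hr : 5 ≤ r) (x : ℕ) : g r (x + r) ≤ g r x + g r r := by
  have hG := G_bd hr
  have h123 := p123 (r := r) (by omega)
  have hp := p_le (r := r) (by omega)
  induction x using Nat.strong_induction_on with
  | _ x ih =>
  have hx := g_lip (r := r) 0 x
  rw [g0, zero_add] at hx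
  have h1 := (hp (g r x + 1) x).not.2 (by omega)
  suffices h : p r (g r x + 1) + r ≤ p r (g r x + 1 + g r r) by
    have := (hp (g r x + 1 + g r r) (x + r)).not.1 (by omega)
    omega
  by_cases h2 : g r x + 1 + g r r ≤ r
  · exact early hr _ (by omega) h2
  have gap : ∀ y, y ≤ x + 1 → g r y + 1 ≤ g r (y + g r r) := by
    intro y hy
    have a1 := g_lip (r := r) 0 y
    rw [g0, zero_add] at a1
    have a2 := (hp (g r y) y).2 le_rfl
    rw [← hp]
    by_cases a3 : g r y ≤ 2
    · have : p r 0 = 0 := rfl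
      generalize g r y = w at *
      interval_cases w <;> simp only [Nat.reduceAdd, zero_add] <;> omega
    · have a4 := p_succ (r := r) (g r y) (by omega)
      by_cases a5 : g r y + 1 ≤ r
      · have := g_mono (r := r) a5
        omega
      · have := ih (g r y + 1 - r) (by omega)
        rw [show g r y + 1 - r + r = g r y + 1 by omega] at this
        omega
  simp only [p, if_neg (show ¬ g r x + 1 ≤ 2 by omega), if_neg (show ¬ g r x + 1 + g r r ≤ 2 by omega), s]
  have h3 : ∑ i ∈ range r, (g r (g r x + 1 - i) + 1) ≤ ∑ i ∈ range r, g r (g r x + 1 + g r r - i) := by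
    refine sum_le_sum fun i hi => ?_
    have hi' := mem_range.1 hi
    by_cases h4 : i ≤ g r x + 1
    · rw [show g r x + 1 + g r r - i = g r x + 1 - i + g r r by omega]
      exact gap _ (by omega)
    · rw [Nat.sub_eq_zero_of_le (by omega), g0]
      exact g_pos _ (by omega)
  simpa [sum_add_distrib] using h3

theorem occ_g (hr : 4 ≤ r) (v : ℕ) (hv : 1 ≤ v) : occ (g r) v = ((p r (v + 1) - p r v : ℕ) : ℕ∞) := by
  have : {i | 1 ≤ i ∧ g r i = v} = (Ico (p r v) (p r (v + 1)) : Finset ℕ) := by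
    ext i
    simp only [Set.mem_ofPred_eq, mem_coe, mem_Ico, p_le hr, ← not_le (a := p r (v + 1))]
    constructor
    · rintro ⟨-, h⟩
      omega
    · rintro ⟨h1, h2⟩
      refine ⟨Nat.pos_of_ne_zero fun h => ?_, by omega⟩
      rw [h, g0] at h1
      omega
  rw [occ, this, Set.encard_coe_eq_coe_finsetCard, Nat.card_Ico]

theorem result (r : ℕ) (hr : 5 ≤ r) : ∃ a, AlmostGolomb r a ∧ (∀ b, AlmostGolomb r b → b = a) ∧
    ⨆ (n : ℕ) (_ : 1 ≤ n), occ a n = occ a (r - 1) := by
  refine ⟨g r, ag_g (by omega), fun b hb => funext fun n => ?_, ?_⟩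
  · induction n using Nat.strong_induction_on with
    | _ n ih =>
      exact le_antisymm (hb.2 _ (sol_g (by omega)) n fun k hk => (ih k hk).symm)
        ((ag_g (by omega)).2 _ hb.1 n ih)
  · refine le_antisymm (iSup₂_le fun n hn => ?_) (le_iSup₂_of_le (r - 1) (by omega) le_rfl)
    rw [occ_g (by omega) _ hn, occ_g (by omega) _ (by omega), Nat.cast_le]
    have hG := G_bd hr
    have h123 := p123 (r := r) (by omega)
    have h1 := p_succ (r := r) (r - 1) (by omega)
    rw [show r - 1 + 1 = r by omega, Nat.sub_self, g0] at h1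
    rw [show r - 1 + 1 = r by omega]
    by_cases h2 : n ≤ 2
    · interval_cases n <;> simp only [Nat.reduceAdd] <;> omega
    · have h3 := p_succ (r := r) n (by omega)
      have h4 := window hr (n + 1 - r)
      have h5 := g_mono (r := r) (show n + 1 ≤ n + 1 - r + r by omega)
      omega

end Pool.Agent.Results.MP_c02c06_co.MaxMult
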